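import Pool.Agent.Q296.Seq.Defs

/-!
# Pattern races
-/

namespace Q296.Race

open MeasureTheory
open scoped ENNReal

/-- The word `w` ends at index `n` of the sequence `X_1, X_2, …`, that is
`X_{n-L+1} ⋯ X_n = w`, where `L` is the length of `w` and `X_k = x (k - 1)`. -/
def occ (w : List Bool) (x : ℕ → Bool) (n : ℕ) : Prop :=
  w.length ≤ n ∧ ∀ i : Fin w.length, x (n - w.length + i) = w.get i

/-- The first index at which the word `w` ends (`∞` if there is none). -/
noncomputable def tau (w : List Bool) (x : ℕ → Bool) : ℕ∞ :=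
  ⨅ (n : ℕ) (_ : occ w x n), (n : ℕ∞)

/-- A coin which shows heads (`true`) with probability `p`, tails (`false`) with
probability `1 - p`. -/
noncomputable def coin (p : ℝ) : Measure Bool :=
  ENNReal.ofReal p • Measure.dirac true + ENNReal.ofReal (1 - p) • Measure.dirac false

/-- The law of two independent i.i.d. sequences of coins. -/
noncomputable def two (p : ℝ) : Measure ((ℕ → Bool) × (ℕ → Bool)) :=
  (Seq.iid (coin p)).prod (Seq.iid (coin p))

/-- The winning probability `P(τ₁ < τ₂) + P(τ₁ = τ₂) / 2`. -/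
noncomputable def W (w₁ w₂ : List Bool) (p : ℝ) : ℝ :=
  (two p {ω | tau w₁ ω.1 < tau w₂ ω.2}).toReal +
    1 / 2 * (two p {ω | tau w₁ ω.1 = tau w₂ ω.2}).toReal

end Q296.Race
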