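import Pool.Agent.Q296.Race.Main

/-!
# The race between `TH` and `TTHH`
-/

namespace Q296.Race

open MeasureTheory Set
open scoped ENNReal

/-- the word `TH` -/
def wa : List Bool := [false, true]

/-- the word `TTHH` -/
def wb : List Bool := [false, false, true, true]

lemma noOverlap_wa : NoOverlap wa := by
  intro j h0 h1
  have h2 : j < 2 := h1
  interval_cases j
  exact ⟨0, by norm_num, by decide⟩

lemma noOverlap_wb : NoOverlap wb := by
  intro j h0 h1
  have h2 : j < 4 := h1
  interval_cases j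
  · exact ⟨0, by norm_num, by decide⟩
  · exact ⟨0, by norm_num, by decide⟩
  · exact ⟨1, by norm_num, by decide⟩

lemma measure_word (ν : Measure Bool) [IsProbabilityMeasure ν] (w : List Bool) :
    Seq.iid ν {x : ℕ → Bool | occ w x w.length} =
      ∏ i ∈ Finset.range w.length, ν {w.getD i false} := by
  have h1 : {x : ℕ → Bool | occ w x w.length} =
      Set.pi (Finset.range w.length : Set ℕ) (fun i => {w.getD i false}) := by
    ext x
    simp only [occ, mem_ofPred_eq, Set.mem_pi, Finset.coe_range, mem_Iio, mem_singleton_iff,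
      le_refl, true_and, Nat.sub_self, Nat.zero_add]
    constructor
    · intro h i hi
      rw [h ⟨i, hi⟩, List.getD_eq_getElem w false hi]
      rfl
    · intro h i
      rw [h i i.2, List.getD_eq_getElem w false i.2]
      rfl
  rw [h1]
  unfold Seq.iid
  rw [Measure.infinitePi_pi]
  intro i _
  exact measurableSet_singleton _

lemma coin_true (p : ℝ) : coin p {true} = ENNReal.ofReal p := by
  unfold coin
  rw [Measure.add_apply, Measure.smul_apply, Measure.smul_apply,
    Measure.dirac_apply' _ (measurableSet_singleton _),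
    Measure.dirac_apply' _ (measurableSet_singleton _)]
  simp

lemma coin_false (p : ℝ) : coin p {false} = ENNReal.ofReal (1 - p) := by
  unfold coin
  rw [Measure.add_apply, Measure.smul_apply, Measure.smul_apply,
    Measure.dirac_apply' _ (measurableSet_singleton _),
    Measure.dirac_apply' _ (measurableSet_singleton _)]
  simp

lemma isProb_coin {p : ℝ} (h0 : 0 ≤ p) (h1 : p ≤ 1) : IsProbabilityMeasure (coin p) := by
  refine ⟨?_⟩
  unfold coin
  rw [Measure.add_apply, Measure.smul_apply, Measure.smul_apply, measure_univ, measure_univ,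
    smul_eq_mul, smul_eq_mul, mul_one, mul_one, ← ENNReal.ofReal_add h0 (by linarith)]
  simp

lemma pr_wa {p : ℝ} (h0 : 0 ≤ p) (h1 : p ≤ 1) : pr (coin p) wa = p * (1 - p) := by
  have := isProb_coin h0 h1
  unfold pr
  rw [measure_word]
  have h2 : wa.length = 2 := rfl
  rw [h2, Finset.prod_range_succ, Finset.prod_range_succ, Finset.prod_range_zero, one_mul]
  have e0 : wa.getD 0 false = false := rfl
  have e1 : wa.getD 1 false = true := rfl
  rw [e0, e1, coin_true, coin_false, ENNReal.toReal_mul, ENNReal.toReal_ofReal (by linarith),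
    ENNReal.toReal_ofReal h0]
  ring

lemma pr_wb {p : ℝ} (h0 : 0 ≤ p) (h1 : p ≤ 1) : pr (coin p) wb = (p * (1 - p)) ^ 2 := by
  have := isProb_coin h0 h1
  unfold pr
  rw [measure_word]
  have h2 : wb.length = 4 := rfl
  rw [h2, Finset.prod_range_succ, Finset.prod_range_succ, Finset.prod_range_succ,
    Finset.prod_range_succ, Finset.prod_range_zero, one_mul]
  have e0 : wb.getD 0 false = false := rfl
  have e1 : wb.getD 1 false = false := rfl
  have e2 : wb.getD 2 false = true := rfl
  have e3 : wb.getD 3 false = true := rfl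
  rw [e0, e1, e2, e3, coin_true, coin_false, ENNReal.toReal_mul, ENNReal.toReal_mul,
    ENNReal.toReal_mul, ENNReal.toReal_ofReal (by linarith), ENNReal.toReal_ofReal h0]
  ring

/-- numerator -/
noncomputable def num (x : ℝ) : ℝ := 1 - 3 / 2 * x ^ 2 + 3 * x ^ 3 + x ^ 7 / 2

/-- denominator -/
noncomputable def den (x : ℝ) : ℝ := 1 + x - 5 * x ^ 2 + 5 * x ^ 3 + x ^ 7

lemma den_pos {x : ℝ} (h0 : 0 ≤ x) (h1 : x ≤ 1 / 4) : 0 < den x := by
  unfold den
  have h2 : 0 ≤ x ^ 3 := by positivity
  have h3 : 0 ≤ x ^ 7 := by positivity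
  nlinarith

/-- The telescoping function -/
noncomputable def tel (x a0 a1 b0 b1 b2 b3 : ℝ) : ℝ :=
  (1 / 2 + x / 2 - 5 / 2 * x ^ 2 + 7 / 2 * x ^ 3 - x ^ 4 / 2 - x ^ 6 / 2 + x ^ 7 / 2) * (a0 * b0) +
  (1 / 2 + x - 2 * x ^ 2 + x ^ 3 + x ^ 4) * (a0 * b1) +
  (x / 2 + x ^ 2 / 2 - 3 / 2 * x ^ 3 + x ^ 5 / 2) * (a0 * b2) +
  (-x + x ^ 3 / 2 - x ^ 4 / 2 - x ^ 5 / 2) * (a0 * b3) +
  (-1 / 2 - x / 2 + 3 / 2 * x ^ 2 - x ^ 3 + x ^ 6 / 2) * (a1 * b0) +
  (-1 / 2 - x / 2 + 3 / 2 * x ^ 2 - x ^ 4 / 2) * (a1 * b1) +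
  (x / 2 - x ^ 2 / 2 + x ^ 3 + x ^ 4 / 2) * (a1 * b2) +
  (1 - x / 2 - x ^ 3 / 2) * (a1 * b3)

lemma tel_step (x a0 a1 b0 b1 b2 b3 : ℝ) :
    den x * ((a0 - a1) * b1 + 1 / 2 * ((a0 - a1) * (b0 - b1))) =
      tel x a0 a1 b0 b1 b2 b3 - tel x a1 (a1 - x * a0) b1 b2 b3 (b3 - x ^ 2 * b0) := by
  unfold den tel
  ring

theorem W_formula {p : ℝ} (h0 : 0 < p) (h1 : p < 1) :
    W wa wb p = num (p * (1 - p)) / den (p * (1 - p)) := by
  have hprob := isProb_coin h0.le h1.le
  set x := p * (1 - p) with hx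
  have hx0 : 0 < x := mul_pos h0 (by linarith)
  have hx1 : x ≤ 1 / 4 := by rw [hx]; nlinarith [sq_nonneg (p - 1 / 2)]
  have hwa : wa ≠ [] := by decide
  have hwb : wb ≠ [] := by decide
  have hpa : pr (coin p) wa = x := pr_wa h0.le h1.le
  have hpb : pr (coin p) wb = x ^ 2 := pr_wb h0.le h1.le
  set a := u (coin p) wa with ha
  set b := u (coin p) wb with hb
  have hra : ∀ n, a (n + 2) = a (n + 1) - x * a n := by
    intro n
    have := u_rec (coin p) wa hwa noOverlap_wa n
    rw [hpa] at this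
    exact this
  have hrb : ∀ n, b (n + 4) = b (n + 3) - x ^ 2 * b n := by
    intro n
    have := u_rec (coin p) wb hwb noOverlap_wb n
    rw [hpb] at this
    exact this
  have hta : Filter.Tendsto a Filter.atTop (nhds 0) :=
    u_tendsto (coin p) wa hwa noOverlap_wa (by rw [hpa]; exact hx0)
  have htb : Filter.Tendsto b Filter.atTop (nhds 0) :=
    u_tendsto (coin p) wb hwb noOverlap_wb (by rw [hpb]; positivity)
  have hs := (hasSum_lt (coin p) wa wb hwa).add
    ((hasSum_eq (coin p) wa wb hwa noOverlap_wa (by rw [hpa]; exact hx0)).mul_left (1 / 2))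
  have hs2 : HasSum (fun n => (a n - a (n + 1)) * b (n + 1) +
      1 / 2 * ((a n - a (n + 1)) * (b n - b (n + 1)))) (W wa wb p) := hs
  have hs3 := (hs2.tendsto_sum_nat).const_mul (den x)
  set T : ℕ → ℝ := fun n => tel x (a n) (a (n + 1)) (b n) (b (n + 1)) (b (n + 2)) (b (n + 3))
    with hT
  have hstep : ∀ n, den x * ((a n - a (n + 1)) * b (n + 1) +
      1 / 2 * ((a n - a (n + 1)) * (b n - b (n + 1)))) = T n - T (n + 1) := by
    intro n
    have h2 : T (n + 1) = tel x (a (n + 1)) (a (n + 1) - x * a n) (b (n + 1)) (b (n + 2))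
        (b (n + 3)) (b (n + 3) - x ^ 2 * b n) := by
      simp only [hT]
      have e1 : n + 1 + 1 = n + 2 := rfl
      have e2 : n + 1 + 2 = n + 3 := rfl
      have e3 : n + 1 + 3 = n + 4 := rfl
      rw [e1, e2, e3, hra n, hrb n]
    rw [h2]
    exact tel_step _ _ _ _ _ _ _
  have hsum : ∀ k, den x * ∑ n ∈ Finset.range k, ((a n - a (n + 1)) * b (n + 1) +
      1 / 2 * ((a n - a (n + 1)) * (b n - b (n + 1)))) = T 0 - T k := by
    intro k
    rw [Finset.mul_sum, Finset.sum_congr rfl (fun n _ => hstep n), Finset.sum_range_sub']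
  have hT0 : Filter.Tendsto T Filter.atTop (nhds 0) := by
    have s1 := (Filter.tendsto_add_atTop_iff_nat 1).2 hta
    have t1 := (Filter.tendsto_add_atTop_iff_nat 1).2 htb
    have t2 := (Filter.tendsto_add_atTop_iff_nat 2).2 htb
    have t3 := (Filter.tendsto_add_atTop_iff_nat 3).2 htb
    have h3 : Filter.Tendsto (fun n => tel x (a n) (a (n + 1)) (b n) (b (n + 1)) (b (n + 2))
        (b (n + 3))) Filter.atTop (nhds (tel x 0 0 0 0 0 0)) := by
      unfold tel
      exact ((((((((hta.mul htb).const_mul _).add ((hta.mul t1).const_mul _)).add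
        ((hta.mul t2).const_mul _)).add ((hta.mul t3).const_mul _)).add
        ((s1.mul htb).const_mul _)).add ((s1.mul t1).const_mul _)).add
        ((s1.mul t2).const_mul _)).add ((s1.mul t3).const_mul _)
    have h4 : tel x 0 0 0 0 0 0 = 0 := by unfold tel; ring
    rw [h4] at h3
    exact h3
  have hlim : Filter.Tendsto (fun k => den x * ∑ n ∈ Finset.range k,
      ((a n - a (n + 1)) * b (n + 1) + 1 / 2 * ((a n - a (n + 1)) * (b n - b (n + 1)))))
      Filter.atTop (nhds (T 0 - 0)) := by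
    simp only [hsum]
    exact tendsto_const_nhds.sub hT0
  have heq := tendsto_nhds_unique hs3 hlim
  have hT00 : T 0 = num x := by
    have a0 : a 0 = 1 := u_lt_length _ _ _ (by decide)
    have a1 : a 1 = 1 := u_lt_length _ _ _ (by decide)
    have b0 : b 0 = 1 := u_lt_length _ _ _ (by decide)
    have b1 : b 1 = 1 := u_lt_length _ _ _ (by decide)
    have b2 : b 2 = 1 := u_lt_length _ _ _ (by decide)
    have b3 : b 3 = 1 := u_lt_length _ _ _ (by decide)
    simp only [hT, Nat.zero_add, a0, a1, b0, b1, b2, b3]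
    unfold tel num
    ring
  rw [hT00, sub_zero] at heq
  rw [eq_div_iff (den_pos hx0.le hx1).ne', mul_comm]
  exact heq

lemma W_symm {p : ℝ} (h0 : 0 < p) (h1 : p < 1) : W wa wb (1 - p) = W wa wb p := by
  rw [W_formula h0 h1, W_formula (p := 1 - p) (by linarith) (by linarith)]
  have : (1 - p) * (1 - (1 - p)) = p * (1 - p) := by ring
  rw [this]

lemma continuousOn_W : ContinuousOn (W wa wb) (Ioo 0 1) := by
  have h1 : ContinuousOn (fun p : ℝ => num (p * (1 - p)) / den (p * (1 - p))) (Ioo 0 1) := by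
    refine ContinuousOn.div ?_ ?_ ?_
    · unfold num; fun_prop
    · unfold den; fun_prop
    · intro p hp
      refine (den_pos (mul_pos hp.1 (by linarith [hp.2])).le ?_).ne'
      nlinarith [sq_nonneg (p - 1 / 2)]
  exact h1.congr fun p hp => W_formula hp.1 hp.2

lemma W_tenth_gt : W wa wb (1 / 5) < W wa wb (1 / 10) := by
  rw [W_formula (by norm_num) (by norm_num), W_formula (by norm_num) (by norm_num)]
  unfold num den
  norm_num

lemma W_half_gt : W wa wb (1 / 5) < W wa wb (1 / 2) := by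
  rw [W_formula (by norm_num) (by norm_num), W_formula (by norm_num) (by norm_num)]
  unfold num den
  norm_num

/-- The winning probability in the race of `TH` against `TTHH` has two local minima and a local
maximum between them. -/
theorem main : ∃ a b c : ℝ, 0 < a ∧ a < b ∧ b < c ∧ c < 1 ∧
    IsLocalMin (W wa wb) a ∧ IsLocalMax (W wa wb) b ∧ IsLocalMin (W wa wb) c := by
  have hsub : Icc (1 / 10 : ℝ) (1 / 2) ⊆ Ioo 0 1 := fun x hx => ⟨by linarith [hx.1], by linarith [hx.2]⟩
  obtain ⟨a, ha, hmin⟩ := isCompact_Icc.exists_isMinOn (nonempty_Icc.2 (by norm_num : (1 / 10 : ℝ) ≤ 1 / 2))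
    (continuousOn_W.mono hsub)
  have hval : W wa wb a ≤ W wa wb (1 / 5) := hmin (⟨by norm_num, by norm_num⟩)
  have ha1 : 1 / 10 < a := by
    rcases lt_or_eq_of_le ha.1 with h | h
    · exact h
    · rw [← h] at hval; exact absurd hval (not_le.2 W_tenth_gt)
  have ha2 : a < 1 / 2 := by
    rcases lt_or_eq_of_le ha.2 with h | h
    · exact h
    · rw [h] at hval; exact absurd hval (not_le.2 W_half_gt)
  have hloc : IsLocalMin (W wa wb) a := hmin.isLocalMin (Icc_mem_nhds ha1 ha2)
  have hloc2 : IsLocalMin (W wa wb) (1 - a) := by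
    have hcont : Filter.Tendsto (fun p : ℝ => 1 - p) (nhds (1 - a)) (nhds a) := by
      have h3 : ContinuousAt (fun p : ℝ => 1 - p) (1 - a) := by fun_prop
      have h4 := h3.tendsto
      have h5 : (1 : ℝ) - (1 - a) = a := by ring
      rw [h5] at h4
      exact h4
    have h6 := hcont.eventually hloc
    have h7 : ∀ᶠ p in nhds (1 - a), p ∈ Ioo (0 : ℝ) 1 :=
      Ioo_mem_nhds (by linarith) (by linarith)
    filter_upwards [h6, h7] with p hp hp2
    rw [W_symm (by linarith) (by linarith)]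
    rw [W_symm hp2.1 hp2.2] at hp
    exact hp
  have hsub2 : Icc a (1 - a) ⊆ Ioo 0 1 := fun x hx => ⟨by linarith [hx.1], by linarith [hx.2]⟩
  obtain ⟨b, hb, hmax⟩ := isCompact_Icc.exists_isMaxOn (nonempty_Icc.2 (by linarith : a ≤ 1 - a))
    (continuousOn_W.mono hsub2)
  have hval2 : W wa wb (1 / 2) ≤ W wa wb b := hmax (⟨by linarith, by linarith⟩)
  have hWa : W wa wb a < W wa wb (1 / 2) := lt_of_le_of_lt hval W_half_gt
  have hb1 : a < b := by
    rcases lt_or_eq_of_le hb.1 with h | h
    · exact h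
    · rw [← h] at hval2; exact absurd hval2 (not_le.2 hWa)
  have hb2 : b < 1 - a := by
    rcases lt_or_eq_of_le hb.2 with h | h
    · exact h
    · rw [h, W_symm (by linarith) (by linarith)] at hval2; exact absurd hval2 (not_le.2 hWa)
  exact ⟨a, b, 1 - a, by linarith, hb1, hb2, by linarith, hloc,
    hmax.isLocalMax (Icc_mem_nhds hb1 hb2), hloc2⟩

end Q296.Race
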