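import Pool.Agent.Q296.Race.Defs
import Pool.Agent.Q296.Seq.Basic

/-!
# Waiting times of patterns without self-overlap
-/

namespace Q296.Race

open MeasureTheory Set
open scoped ENNReal

/-! ### Independence of the past and the future -/

lemma indep_shift {E : Type*} [MeasurableSpace E] (ν : Measure E) [IsProbabilityMeasure ν]
    (B : Set (ℕ → E)) (hB : MeasurableSet B) (n : ℕ) :
    ∀ A : Set (ℕ → E), MeasurableSet A →
      (∀ ω ω' : ℕ → E, (∀ i < n, ω i = ω' i) → (ω ∈ A ↔ ω' ∈ A)) →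
      Seq.iid ν (A ∩ {ω | (fun i => ω (n + i)) ∈ B}) = Seq.iid ν A * Seq.iid ν B := by
  induction n with
  | zero =>
    intro A _ hA
    rcases A.eq_empty_or_nonempty with rfl | ⟨ω0, h0⟩
    · simp
    · have : A = Set.univ := by
        rw [Set.eq_univ_iff_forall]
        intro ω
        exact (hA ω0 ω (fun i hi => absurd hi (Nat.not_lt_zero i))).1 h0
      rw [this, measure_univ, one_mul, univ_inter]
      congr 1
      ext ω
      simp only [Nat.zero_add, mem_ofPred_eq]
  | succ n ih =>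
    intro A hAm hA
    have hshift : MeasurableSet {ω : ℕ → E | (fun i => ω (n + 1 + i)) ∈ B} := by
      have : Measurable (fun (ω : ℕ → E) (i : ℕ) => ω (n + 1 + i)) :=
        measurable_pi_lambda _ fun i => measurable_pi_apply _
      exact this hB
    rw [Seq.measure_cons ν (hAm.inter hshift), Seq.measure_cons ν hAm,
      ← lintegral_mul_const' _ _ (measure_ne_top _ _)]
    refine lintegral_congr fun e => ?_
    have h1 := ih {ω | Seq.cons (e, ω) ∈ A} ?_ ?_
    · rw [← h1]
      congr 1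
      ext ω
      simp only [mem_ofPred_eq, mem_inter_iff]
      have : (fun i => Seq.cons (e, ω) (n + 1 + i)) = fun i => ω (n + i) := by
        funext i
        have h2 : n + 1 + i = (n + i) + 1 := by ring
        rw [h2]; rfl
      rw [this]
    · exact (Seq.measurable_cons.comp (measurable_const.prodMk measurable_id)) hAm
    · intro ω ω' h
      refine hA _ _ fun i hi => ?_
      cases i with
      | zero => rfl
      | succ i => exact h i (by omega)

/-! ### Survival events -/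

/-- `τ > n` -/
def A (w : List Bool) (n : ℕ) : Set (ℕ → Bool) := {x | ∀ m ≤ n, ¬ occ w x m}

lemma measurableSet_occ (w : List Bool) (n : ℕ) : MeasurableSet {x : ℕ → Bool | occ w x n} := by
  by_cases h : w.length ≤ n
  · have : {x : ℕ → Bool | occ w x n} =
        ⋂ i : Fin w.length, {x | x (n - w.length + i) = w.get i} := by
      ext x
      simp [occ, h]
    rw [this]
    refine MeasurableSet.iInter fun i => ?_
    exact (measurable_pi_apply _) (measurableSet_singleton _)
  · have : {x : ℕ → Bool | occ w x n} = ∅ := by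
      ext x
      simp [occ, h]
    rw [this]; exact MeasurableSet.empty

lemma measurableSet_A (w : List Bool) (n : ℕ) : MeasurableSet (A w n) := by
  have : A w n = ⋂ m ∈ Finset.range (n + 1), {x : ℕ → Bool | occ w x m}ᶜ := by
    ext x
    simp only [A, mem_ofPred_eq, mem_iInter, Finset.mem_range, mem_compl_iff, Nat.lt_succ_iff]
  rw [this]
  exact Finset.measurableSet_biInter _ fun m _ => (measurableSet_occ w m).compl

lemma A_antitone (w : List Bool) {m n : ℕ} (h : m ≤ n) : A w n ⊆ A w m :=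
  fun _ hx k hk => hx k (hk.trans h)

lemma A_zero (w : List Bool) (hw : w ≠ []) : A w 0 = Set.univ := by
  rw [Set.eq_univ_iff_forall]
  intro x m hm h
  have h1 := h.1
  have h2 : 0 < w.length := List.length_pos_iff.2 hw
  omega

lemma occ_congr (w : List Bool) {x y : ℕ → Bool} {n : ℕ} (h : ∀ i < n, x i = y i) :
    occ w x n ↔ occ w y n := by
  unfold occ
  constructor
  · rintro ⟨h1, h2⟩
    refine ⟨h1, fun i => ?_⟩
    rw [← h _ (by have := i.2; omega)]
    exact h2 i
  · rintro ⟨h1, h2⟩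
    refine ⟨h1, fun i => ?_⟩
    rw [h _ (by have := i.2; omega)]
    exact h2 i

lemma A_congr (w : List Bool) {x y : ℕ → Bool} {n : ℕ} (h : ∀ i < n, x i = y i) :
    x ∈ A w n ↔ y ∈ A w n := by
  unfold A
  constructor
  · intro h1 m hm h2
    exact h1 m hm ((occ_congr w (fun i hi => h i (by omega))).2 h2)
  · intro h1 m hm h2
    exact h1 m hm ((occ_congr w (fun i hi => h i (by omega))).1 h2)

/-- `w` has no self-overlap -/
def NoOverlap (w : List Bool) : Prop :=
  ∀ j, 0 < j → j < w.length → ∃ i, i < j ∧ w[i]? ≠ w[i + w.length - j]?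

lemma key (w : List Bool) (hw : w ≠ []) (hno : NoOverlap w) (n : ℕ) :
    A w n ∩ {x | (fun i => x (n + i)) ∈ {x : ℕ → Bool | occ w x w.length}} =
      A w (n + w.length - 1) \ A w (n + w.length) := by
  have hL : 0 < w.length := List.length_pos_iff.2 hw
  have hocc : ∀ x : ℕ → Bool, (fun i => x (n + i)) ∈ {x : ℕ → Bool | occ w x w.length} ↔
      occ w x (n + w.length) := by
    intro x
    simp only [mem_ofPred_eq, occ]
    constructor
    · rintro ⟨_, h⟩
      refine ⟨by omega, fun i => ?_⟩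
      have h1 := h i
      have e : n + w.length - w.length + (i : ℕ) = n + (w.length - w.length + i) := by omega
      rw [e]; exact h1
    · rintro ⟨_, h⟩
      refine ⟨le_rfl, fun i => ?_⟩
      have h1 := h i
      have e : n + w.length - w.length + (i : ℕ) = n + (w.length - w.length + i) := by omega
      rw [e] at h1; exact h1
  ext x
  rw [mem_inter_iff, mem_ofPred_eq, hocc, mem_sdiff]
  constructor
  · rintro ⟨h1, h2⟩
    refine ⟨?_, fun h3 => h3 _ le_rfl h2⟩
    intro m hm h3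
    by_cases hmn : m ≤ n
    · exact h1 m hmn h3
    · push Not at hmn
      set j := m - n with hj
      obtain ⟨i, hi, hne⟩ := hno j (by omega) (by omega)
      apply hne
      have hiL : i < w.length := by omega
      have hiL2 : i + w.length - j < w.length := by omega
      have e1 := h2.2 ⟨i, hiL⟩
      have e2 := h3.2 ⟨i + w.length - j, hiL2⟩
      have h3' := h3.1
      have e3 : m - w.length + (i + w.length - j) = n + w.length - w.length + i := by omega
      simp only [List.get_eq_getElem] at e1 e2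
      rw [e3, e1] at e2
      rw [List.getElem?_eq_getElem hiL, List.getElem?_eq_getElem hiL2, e2]
  · rintro ⟨h1, h2⟩
    refine ⟨A_antitone w (by omega) h1, ?_⟩
    by_contra h3
    apply h2
    intro m hm h4
    by_cases hm2 : m ≤ n + w.length - 1
    · exact h1 m hm2 h4
    · have : m = n + w.length := by omega
      rw [this] at h4
      exact h3 h4

/-! ### Tail probabilities -/

variable (ν : Measure Bool) [IsProbabilityMeasure ν]

/-- tail probabilities of the waiting time -/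
noncomputable def u (w : List Bool) (n : ℕ) : ℝ := (Seq.iid ν (A w n)).toReal

/-- the probability of the word -/
noncomputable def pr (w : List Bool) : ℝ := (Seq.iid ν {x : ℕ → Bool | occ w x w.length}).toReal

lemma u_zero (w : List Bool) (hw : w ≠ []) : u ν w 0 = 1 := by
  unfold u
  rw [A_zero w hw, measure_univ]; rfl

omit [IsProbabilityMeasure ν] in
lemma u_nonneg (w : List Bool) (n : ℕ) : 0 ≤ u ν w n := ENNReal.toReal_nonneg

lemma u_antitone (w : List Bool) : Antitone (u ν w) := by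
  intro m n h
  unfold u
  exact ENNReal.toReal_mono (measure_ne_top _ _) (measure_mono (A_antitone w h))

lemma u_lt_length (w : List Bool) (n : ℕ) (hn : n < w.length) : u ν w n = 1 := by
  have : A w n = Set.univ := by
    rw [Set.eq_univ_iff_forall]
    intro x m hm h
    have := h.1
    omega
  unfold u
  rw [this, measure_univ]; rfl

lemma diff_eq (w : List Bool) {m n : ℕ} (h : m ≤ n) :
    (Seq.iid ν (A w m \ A w n)).toReal = u ν w m - u ν w n := by
  unfold u
  rw [measure_sdiff (A_antitone w h) (measurableSet_A w n).nullMeasurableSet (measure_ne_top _ _),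
    ENNReal.toReal_sub_of_le (measure_mono (A_antitone w h)) (measure_ne_top _ _)]

lemma u_rec (w : List Bool) (hw : w ≠ []) (hno : NoOverlap w) (n : ℕ) :
    u ν w (n + w.length) = u ν w (n + w.length - 1) - pr ν w * u ν w n := by
  have h1 := diff_eq ν w (show n + w.length - 1 ≤ n + w.length by omega)
  rw [← key w hw hno n, indep_shift ν _ (measurableSet_occ w w.length) n (A w n)
    (measurableSet_A w n) (fun ω ω' h => A_congr w h), ENNReal.toReal_mul] at h1
  have h2 : (Seq.iid ν (A w n)).toReal * (Seq.iid ν {x | occ w x w.length}).toReal =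
    u ν w n * pr ν w := rfl
  rw [h2] at h1
  linarith

lemma u_tendsto (w : List Bool) (hw : w ≠ []) (hno : NoOverlap w) (hp : 0 < pr ν w) :
    Filter.Tendsto (u ν w) Filter.atTop (nhds 0) := by
  have hbdd : BddBelow (Set.range (u ν w)) := ⟨0, by rintro _ ⟨n, rfl⟩; exact u_nonneg ν w n⟩
  have h1 := tendsto_atTop_ciInf (u_antitone ν w) hbdd
  set l := ⨅ n, u ν w n with hl
  have h2 : Filter.Tendsto (fun n => u ν w (n + w.length)) Filter.atTop (nhds l) :=
    (Filter.tendsto_add_atTop_iff_nat w.length).2 h1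
  have h3 : Filter.Tendsto (fun n => u ν w (n + w.length - 1)) Filter.atTop (nhds l) := by
    have hL : 0 < w.length := List.length_pos_iff.2 hw
    have : (fun n => u ν w (n + w.length - 1)) = fun n => u ν w (n + (w.length - 1)) := by
      funext n; congr 1; omega
    rw [this]
    exact (Filter.tendsto_add_atTop_iff_nat (w.length - 1)).2 h1
  have h4 : Filter.Tendsto (fun n => u ν w (n + w.length)) Filter.atTop
      (nhds (l - pr ν w * l)) := by
    have h5 := h3.sub (h1.const_mul (pr ν w))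
    refine h5.congr fun n => ?_
    rw [u_rec ν w hw hno n]
  have h6 := tendsto_nhds_unique h2 h4
  have h7 : pr ν w * l = 0 := by linarith
  have h8 : l = 0 := by
    rcases mul_eq_zero.1 h7 with h | h
    · exact absurd h hp.ne'
    · exact h
  rw [h8] at h1
  exact h1

/-! ### The race -/

lemma tau_gt_iff (w : List Bool) (x : ℕ → Bool) (n : ℕ) : (n : ℕ∞) < tau w x ↔ x ∈ A w n := by
  unfold tau A
  constructor
  · intro h m hm h2
    have h3 : (⨅ (n : ℕ) (_ : occ w x n), (n : ℕ∞)) ≤ m := iInf₂_le m h2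
    have h4 : (m : ℕ∞) ≤ n := by exact_mod_cast hm
    exact absurd (lt_of_lt_of_le h (h3.trans h4)) (lt_irrefl _)
  · intro h
    have h5 : ((n + 1 : ℕ) : ℕ∞) ≤ ⨅ (n : ℕ) (_ : occ w x n), (n : ℕ∞) := by
      refine le_iInf₂ fun m hm => ?_
      have : n < m := by
        by_contra h6
        push Not at h6
        exact h m h6 hm
      exact_mod_cast this
    refine lt_of_lt_of_le ?_ h5
    exact_mod_cast Nat.lt_succ_self n

lemma tau_eq_iff (w : List Bool) (x : ℕ → Bool) (n : ℕ) :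
    tau w x = ((n + 1 : ℕ) : ℕ∞) ↔ x ∈ A w n \ A w (n + 1) := by
  rw [mem_sdiff, ← tau_gt_iff, ← tau_gt_iff]
  constructor
  · intro h
    rw [h]
    exact ⟨by exact_mod_cast Nat.lt_succ_self n, lt_irrefl _⟩
  · rintro ⟨h1, h2⟩
    refine le_antisymm (not_lt.1 h2) ?_
    have := Order.add_one_le_of_lt h1
    exact_mod_cast this

lemma tau_pos (w : List Bool) (hw : w ≠ []) (x : ℕ → Bool) : (0 : ℕ∞) < tau w x := by
  have := (tau_gt_iff w x 0).2 (by rw [A_zero w hw]; exact mem_univ x)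
  exact_mod_cast this

lemma lt_set (w₁ w₂ : List Bool) (h₁ : w₁ ≠ []) :
    {ω : (ℕ → Bool) × (ℕ → Bool) | tau w₁ ω.1 < tau w₂ ω.2} =
      ⋃ n, (A w₁ n \ A w₁ (n + 1)) ×ˢ (A w₂ (n + 1)) := by
  ext ω
  simp only [mem_ofPred_eq, mem_iUnion, mem_prod]
  constructor
  · intro h
    have hfin : tau w₁ ω.1 ≠ ⊤ := ne_top_of_lt h
    obtain ⟨m, hm⟩ := ENat.ne_top_iff_exists.1 hfin
    have h0 : m ≠ 0 := by
      rintro rfl
      have := tau_pos w₁ h₁ ω.1
      rw [← hm] at this
      simp at this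
    obtain ⟨n, rfl⟩ := Nat.exists_eq_succ_of_ne_zero h0
    refine ⟨n, (tau_eq_iff w₁ ω.1 n).1 hm.symm, ?_⟩
    rw [← tau_gt_iff]
    have hm' : ((n + 1 : ℕ) : ℕ∞) = tau w₁ ω.1 := hm
    rw [hm']; exact h
  · rintro ⟨n, h1, h2⟩
    rw [(tau_eq_iff w₁ ω.1 n).2 h1]
    exact (tau_gt_iff w₂ ω.2 (n + 1)).2 h2

lemma eq_set (w₁ w₂ : List Bool) (h₁ : w₁ ≠ []) :
    {ω : (ℕ → Bool) × (ℕ → Bool) | tau w₁ ω.1 = tau w₂ ω.2} =
      (⋃ n, (A w₁ n \ A w₁ (n + 1)) ×ˢ (A w₂ n \ A w₂ (n + 1))) ∪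
        {ω | tau w₁ ω.1 = ⊤ ∧ tau w₂ ω.2 = ⊤} := by
  ext ω
  simp only [mem_ofPred_eq, mem_iUnion, mem_prod, mem_union]
  constructor
  · intro h
    by_cases hfin : tau w₁ ω.1 = ⊤
    · right; exact ⟨hfin, by rw [← h]; exact hfin⟩
    · left
      obtain ⟨m, hm⟩ := ENat.ne_top_iff_exists.1 hfin
      have h0 : m ≠ 0 := by
        rintro rfl
        have := tau_pos w₁ h₁ ω.1
        rw [← hm] at this
        simp at this
      obtain ⟨n, rfl⟩ := Nat.exists_eq_succ_of_ne_zero h0
      refine ⟨n, (tau_eq_iff w₁ ω.1 n).1 hm.symm, (tau_eq_iff w₂ ω.2 n).1 ?_⟩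
      rw [← h]; exact hm.symm
  · rintro (⟨n, h1, h2⟩ | ⟨h1, h2⟩)
    · rw [(tau_eq_iff w₁ ω.1 n).2 h1, (tau_eq_iff w₂ ω.2 n).2 h2]
    · rw [h1, h2]

lemma diff_disjoint (w : List Bool) {m n : ℕ} (h : m < n) :
    Disjoint (A w m \ A w (m + 1)) (A w n \ A w (n + 1)) := by
  rw [Set.disjoint_left]
  rintro x ⟨_, h2⟩ ⟨h3, _⟩
  exact h2 (A_antitone w h h3)

lemma pairwise_disj (w₁ : List Bool) (s : ℕ → Set (ℕ → Bool)) :
    Pairwise (Function.onFun Disjoint fun n => (A w₁ n \ A w₁ (n + 1)) ×ˢ (s n)) := by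
  intro m n hmn
  refine Set.disjoint_prod.2 (Or.inl ?_)
  rcases lt_or_gt_of_ne hmn with h | h
  · exact diff_disjoint w₁ h
  · exact (diff_disjoint w₁ h).symm

lemma hasSum_lt (w₁ w₂ : List Bool) (h₁ : w₁ ≠ []) :
    HasSum (fun n => (u ν w₁ n - u ν w₁ (n + 1)) * u ν w₂ (n + 1))
      (((Seq.iid ν).prod (Seq.iid ν)) {ω | tau w₁ ω.1 < tau w₂ ω.2}).toReal := by
  rw [lt_set w₁ w₂ h₁, measure_iUnion (pairwise_disj w₁ _) (fun n =>
    ((measurableSet_A w₁ n).diff (measurableSet_A w₁ (n + 1))).prod (measurableSet_A w₂ (n + 1)))]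
  have h2 : ∀ n, ((Seq.iid ν).prod (Seq.iid ν)) ((A w₁ n \ A w₁ (n + 1)) ×ˢ (A w₂ (n + 1))) =
      Seq.iid ν (A w₁ n \ A w₁ (n + 1)) * Seq.iid ν (A w₂ (n + 1)) := fun n =>
    Measure.prod_prod _ _
  have h4 : ∑' n, ((Seq.iid ν).prod (Seq.iid ν)) ((A w₁ n \ A w₁ (n + 1)) ×ˢ (A w₂ (n + 1))) ≠ ∞ := by
    rw [← measure_iUnion (pairwise_disj w₁ _) (fun n =>
      ((measurableSet_A w₁ n).diff (measurableSet_A w₁ (n + 1))).prod (measurableSet_A w₂ (n + 1)))]
    exact measure_ne_top _ _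
  have h3 := ENNReal.hasSum_toReal h4
  convert h3 using 1
  · funext n
    rw [h2, ENNReal.toReal_mul, diff_eq ν w₁ (Nat.le_succ n)]
    rfl
  · rw [ENNReal.tsum_toReal_eq (ENNReal.ne_top_of_tsum_ne_top h4)]

lemma measure_top (w : List Bool) (hw : w ≠ []) (hno : NoOverlap w) (hp : 0 < pr ν w) :
    Seq.iid ν {x | tau w x = ⊤} = 0 := by
  have h1 : ∀ n, Seq.iid ν {x | tau w x = ⊤} ≤ ENNReal.ofReal (u ν w n) := by
    intro n
    unfold u
    rw [ENNReal.ofReal_toReal (measure_ne_top _ _)]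
    refine measure_mono fun x hx => ?_
    rw [← tau_gt_iff]
    have : tau w x = ⊤ := hx
    rw [this]
    exact ENat.natCast_lt_top n
  have h2 := (ENNReal.continuous_ofReal.tendsto 0).comp (u_tendsto ν w hw hno hp)
  have h3 := ge_of_tendsto' h2 h1
  simpa using h3

lemma hasSum_eq (w₁ w₂ : List Bool) (h₁ : w₁ ≠ []) (hno : NoOverlap w₁)
    (hp : 0 < pr ν w₁) :
    HasSum (fun n => (u ν w₁ n - u ν w₁ (n + 1)) * (u ν w₂ n - u ν w₂ (n + 1)))
      (((Seq.iid ν).prod (Seq.iid ν)) {ω | tau w₁ ω.1 = tau w₂ ω.2}).toReal := by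
  have hnull : ((Seq.iid ν).prod (Seq.iid ν)) {ω | tau w₁ ω.1 = ⊤ ∧ tau w₂ ω.2 = ⊤} = 0 := by
    have hsub : {ω : (ℕ → Bool) × (ℕ → Bool) | tau w₁ ω.1 = ⊤ ∧ tau w₂ ω.2 = ⊤} ⊆
        {x | tau w₁ x = ⊤} ×ˢ Set.univ := fun ω h => ⟨h.1, mem_univ _⟩
    refine measure_mono_null hsub ?_
    rw [Measure.prod_prod, measure_top ν w₁ h₁ hno hp, zero_mul]
  have hun : ∀ s : Set ((ℕ → Bool) × (ℕ → Bool)), ((Seq.iid ν).prod (Seq.iid ν))
      (s ∪ {ω | tau w₁ ω.1 = ⊤ ∧ tau w₂ ω.2 = ⊤}) = ((Seq.iid ν).prod (Seq.iid ν)) s := fun s =>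
    le_antisymm ((measure_union_le _ _).trans (by rw [hnull, add_zero]))
      (measure_mono subset_union_left)
  rw [eq_set w₁ w₂ h₁, hun, measure_iUnion (pairwise_disj w₁ _) (fun n =>
    ((measurableSet_A w₁ n).diff (measurableSet_A w₁ (n + 1))).prod
      ((measurableSet_A w₂ n).diff (measurableSet_A w₂ (n + 1))))]
  have h2 : ∀ n, ((Seq.iid ν).prod (Seq.iid ν)) ((A w₁ n \ A w₁ (n + 1)) ×ˢ
      (A w₂ n \ A w₂ (n + 1))) =
      Seq.iid ν (A w₁ n \ A w₁ (n + 1)) * Seq.iid ν (A w₂ n \ A w₂ (n + 1)) := fun n =>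
    Measure.prod_prod _ _
  have h4 : ∑' n, ((Seq.iid ν).prod (Seq.iid ν)) ((A w₁ n \ A w₁ (n + 1)) ×ˢ
      (A w₂ n \ A w₂ (n + 1))) ≠ ∞ := by
    rw [← measure_iUnion (pairwise_disj w₁ _) (fun n =>
      ((measurableSet_A w₁ n).diff (measurableSet_A w₁ (n + 1))).prod
        ((measurableSet_A w₂ n).diff (measurableSet_A w₂ (n + 1))))]
    exact measure_ne_top _ _
  have h3 := ENNReal.hasSum_toReal h4
  convert h3 using 1
  · funext n
    rw [h2, ENNReal.toReal_mul, diff_eq ν w₁ (Nat.le_succ n), diff_eq ν w₂ (Nat.le_succ n)]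
  · rw [ENNReal.tsum_toReal_eq (ENNReal.ne_top_of_tsum_ne_top h4)]

end Q296.Race
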